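import Pool.Agent.TH402.FB.Rel

/-!
# Prime values of `p_n + 2 c` for almost all constants `c` of a Bohr neighbourhood of zero

The case of constant polynomials `P = c`, for arbitrary relations between the indices of the two primes.
-/

set_option autoImplicit false

namespace Pool.Agent.Results.MP_3aaefc_nt.BohrConstants

open Filter

/-- the `n`-th prime, `n ≥ 1` -/
noncomputable def p (n : ℕ) : ℕ := Nat.nth Nat.Prime (n - 1)

/-- `c` is in the Bohr neighbourhood of zero with frequencies `Θ` and radius `ρ`: for every `θ` in `Θ` the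
distance of `c * θ` to the nearest integer is less than `ρ` -/
def InBohr (Θ : Finset ℝ) (ρ : ℝ) (c : ℕ) : Prop :=
  ∀ θ ∈ Θ, |(c : ℝ) * θ - round ((c : ℝ) * θ)| < ρ

/-- for every `η > 0` there are arbitrarily large `x` with at least `x ^ (1 - η)` indices `n ≥ 1` such that
`p_n ≤ x`, `p_n ≡ a (mod q)` and `p_n + 2 c` is a prime `p_k` with `n < k ≤ n + m` and `R n k` -/
def Good (q a m : ℕ) (R : ℕ → ℕ → Prop) (c : ℕ) : Prop := ∀ η : ℝ, 0 < η → ∃ᶠ x : ℝ in atTop,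
  x ^ (1 - η) ≤ ({n : ℕ | 1 ≤ n ∧ (p n : ℝ) ≤ x ∧ p n ≡ a [MOD q] ∧
    ∃ k, n < k ∧ k ≤ n + m ∧ R n k ∧ p k = p n + 2 * c}.ncard : ℝ)

/-- Let `a` be coprime to `q ≥ 1` and let `R` be a relation on the indices such that among any `m + 1`
consecutive indices there are two, `i < k`, with `R i k`. Then there is a Bohr neighbourhood of zero, which
has bounded gaps, and almost all (in the sense of Banach density) elements `c` of it are `Good`. -/
theorem result (q a m : ℕ) (hq : 0 < q) (ha : a.Coprime q) (R : ℕ → ℕ → Prop)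
    (hR : ∀ j : ℕ, 1 ≤ j → ∃ i k, j ≤ i ∧ i < k ∧ k ≤ j + m ∧ R i k) :
    ∃ (Θ : Finset ℝ) (ρ : ℝ), 0 < ρ ∧
    (∃ L : ℕ, ∀ u : ℕ, ∃ c : ℕ, u < c ∧ c ≤ u + L ∧ InBohr Θ ρ c) ∧
    ∀ ε : ℝ, 0 < ε → ∃ L₀ : ℕ, ∀ L : ℕ, L₀ ≤ L → ∀ u : ℕ,
      ({c : ℕ | u < c ∧ c ≤ u + L ∧ InBohr Θ ρ c ∧ ¬ Good q a m R c}.ncard : ℝ) ≤ ε * L := by
  classical
  have hR' : ∀ j : ℕ, ∃ i k, j ≤ i ∧ i < k ∧ k ≤ j + m ∧ R (i + 1) (k + 1) := by
    intro j
    obtain ⟨i, k, h1, h2, h3, h4⟩ := hR (j + 1) (by omega)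
    refine ⟨i - 1, k - 1, by omega, by omega, by omega, ?_⟩
    have e1 : i - 1 + 1 = i := by omega
    have e2 : k - 1 + 1 = k := by omega
    rw [e1, e2]
    exact h4
  obtain ⟨M₁, hM, T, ρ₀, hρ₀, hnull⟩ :=
    Pool.Agent.TH402.FB.gapsR q a hq ha m (R := fun i k => R (i + 1) (k + 1)) hR'
  obtain ⟨Θ, ρ, hρ, H⟩ := Pool.Agent.TH402.FB.transfer hM hq hρ₀ hnull
  refine ⟨Θ.image fun θ : ℝ => 2 * θ, ρ, hρ,
    Pool.Agent.TH402.FB.syn (Θ.image fun θ : ℝ => 2 * θ) ρ hρ, fun ε hε => ?_⟩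
  obtain ⟨L₀, h⟩ := H (ε / 2) (by positivity)
  refine ⟨L₀, fun L hL u => ?_⟩
  have h1 := h (2 * L) (by omega) (2 * u)
  have h2 : ε / 2 * ((2 * L : ℕ) : ℝ) = ε * L := by push_cast; ring
  rw [h2] at h1
  refine le_trans ?_ h1
  rw [Nat.cast_le]
  refine Set.ncard_le_ncard_of_injOn (fun c => 2 * c) ?_ (fun c _ c' _ h => ?_)
    ((Set.finite_le_nat (2 * u + 2 * L)).subset fun d hd => hd.2.1)
  · rintro c ⟨h3, h4, h5, h6⟩
    refine ⟨by show 2 * u < 2 * c; omega, by show 2 * c ≤ 2 * u + 2 * L; omega, ?_, ?_⟩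
    · intro θ hθ
      have h7 := h5 (2 * θ) (Finset.mem_image_of_mem _ hθ)
      have e : ((2 * c : ℕ) : ℝ) * θ = (c : ℝ) * (2 * θ) := by push_cast; ring
      show |((2 * c : ℕ) : ℝ) * θ - round (((2 * c : ℕ) : ℝ) * θ)| < ρ
      rw [e]
      exact h7
    · rintro ⟨k, hk, hkc⟩
      have hkc' : 2 * c = q * k := hkc
      apply h6
      intro η hη
      refine (Pool.Agent.TH402.FB.nthR hk η hη).mono fun x hx => hx.trans ?_
      rw [Nat.cast_le]
      refine Set.ncard_le_ncard_of_injOn (fun n => n + 1) ?_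
        (fun n _ n' _ h => Nat.add_right_cancel h) ?_
      · rintro n ⟨h7, h8, j, h9, h10, h11, h12⟩
        refine ⟨by show 1 ≤ n + 1; omega, ?_, ?_, j + 1, by show n + 1 < j + 1; omega,
          by show j + 1 ≤ n + 1 + m; omega, h11, ?_⟩
        · exact h7
        · exact h8
        · show Nat.nth Nat.Prime j = Nat.nth Nat.Prime n + 2 * c
          rw [h12, hkc']
      · apply (Set.finite_Iic ⌊x⌋₊).subset
        rintro n ⟨h7, h8, -⟩
        rw [Set.mem_Iic]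
        apply Nat.le_floor
        refine le_trans ?_ h8
        have h9 := Nat.add_two_le_nth_prime (n - 1)
        unfold p
        exact_mod_cast (by omega : n ≤ Nat.nth Nat.Prime (n - 1))
  · have h' : 2 * c = 2 * c' := h
    omega

end Pool.Agent.Results.MP_3aaefc_nt.BohrConstants
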