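import Pool.Agent.TH882.Z2
import Pool.Agent.TH882.T2

/-!
Primes `p_n + 2 c_j` for constants `c_j`, with the index `n` in a given set with bounded gaps and with
several further primes just after `p_n`.
-/

set_option autoImplicit false

open Finset Filter Topology

namespace Pool.Agent.Results.MP_3aaefc_nt.ConstantsAlongSyndeticIndices

/-- The `n`-th prime: `p 1 = 2`, `p 2 = 3`, `p 3 = 5`, and so on. -/
noncomputable def p (n : ℕ) : ℕ := Nat.nth Nat.Prime (n - 1)

/-- Every block of `M` consecutive positive integers contains an element of `S`. -/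
def Syndetic (M : ℕ) (S : Set ℕ) : Prop := ∀ j : ℕ, 1 ≤ j → ∃ i < M, j + i ∈ S

/-- For every prime `l` there is an integer `a` such that `l` divides none of the numbers `a` and
`a + 2 c_j`. -/
def Admissible {r : ℕ} (c : Fin r → ℕ) : Prop :=
  ∀ l : ℕ, l.Prime → ∃ a : ℤ, ¬ (l : ℤ) ∣ a * ∏ j, (a + 2 * c j)

/-- The indices `n ≥ 1` in `S` with `p_n ≤ x` such that all the numbers `p_n + 2 c_j` are prime and
`p_{n+m} ≤ p_n + ε log x`. -/
def good (S : Set ℕ) (m : ℕ) (ε : ℝ) {r : ℕ} (c : Fin r → ℕ) (x : ℕ) : Set ℕ :=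
  {n : ℕ | n ∈ S ∧ 1 ≤ n ∧ p n ≤ x ∧ (∀ j, (p n + 2 * c j).Prime) ∧
    (p (n + m) : ℝ) ≤ p n + ε * Real.log x}

open Classical in
/-- The admissible vectors with `1 ≤ c_j ≤ A x` and with fewer than `δ x / (log x) ^ (r + 1)` indices
`n` as above. -/
noncomputable def exceptions (S : Set ℕ) (m : ℕ) (ε : ℝ) (r : ℕ) (δ : ℝ) (A x : ℕ) :
    Finset (Fin r → ℕ) :=
  (Fintype.piFinset (fun _ : Fin r => Icc 1 (A * x))).filter (fun c => Admissible c ∧
    ((good S m ε c x).ncard : ℝ) < δ * (x / Real.log x ^ (r + 1)))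

lemma p_pi (q : ℕ) (hq : q.Prime) : p (Nat.primeCounting q) = q := by
  unfold p Nat.primeCounting Nat.primeCounting'
  rw [Nat.count_succ, if_pos hq, Nat.add_sub_cancel]
  exact Nat.nth_count hq

lemma pi_pos (q : ℕ) (hq : q.Prime) : 1 ≤ Nat.primeCounting q := by
  unfold Nat.primeCounting Nat.primeCounting'
  rw [Nat.count_succ, if_pos hq]
  omega

lemma good_finite (S : Set ℕ) (m : ℕ) (ε : ℝ) {r : ℕ} (c : Fin r → ℕ) (x : ℕ) :
    (good S m ε c x).Finite := by
  apply (Finset.finite_toSet (Finset.range (x + 1))).subset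
  rintro n ⟨-, h1, h2, -⟩
  rw [Finset.mem_coe, Finset.mem_range]
  unfold p at h2
  have e1 := Nat.add_two_le_nth_prime (n - 1)
  omega

/-- **The case of constant polynomials along sets of indices with bounded gaps.** Let `S` be a set of
positive integers with bounded gaps, let `r`, `m`, `A` be integers and `ε, κ > 0`. There is `δ > 0`
such that for all large `x` and for all admissible vectors `(c_1, …, c_r)` of integers
`1 ≤ c_j ≤ A x`, with at most `κ x ^ r` exceptions, there are at least `δ x / (log x) ^ (r + 1)`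
indices `n ∈ S` with `p_n ≤ x` such that all the numbers `p_n + 2 c_j` are prime and
`p_{n+m} - p_n ≤ ε log x`. For `r = 1` every `c` is admissible. -/
theorem result (M : ℕ) (S : Set ℕ) (hS : Syndetic M S) :
    (∀ (r m A : ℕ) (ε κ : ℝ), 0 < ε → 0 < κ → ∃ δ : ℝ, 0 < δ ∧
      ∀ᶠ x : ℕ in atTop, ((exceptions S m ε r δ A x).card : ℝ) ≤ κ * (x : ℝ) ^ r) ∧
    ∀ c : Fin 1 → ℕ, Admissible c := by
  classical
  constructor
  · intro r m A ε κ hε hκ
    have hM : 1 ≤ M := by
      obtain ⟨i, hi, -⟩ := hS 1 le_rfl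
      omega
    obtain ⟨δ, hδ, x₀, h⟩ := Pool.Agent.TH882.TS.base
      (fun _ : Fin r => (Polynomial.X : Polynomial ℤ)) (fun _ => by simp) (fun _ => by simp)
      (Pool.Agent.TH882.HZ2.IQ (Pool.Agent.TH882.HZ2.QK S m ε))
      (Pool.Agent.TH882.HZ2.QK_most M m hM S hS ε hε)
      (fun x q => Nat.primeCounting q ∈ S ∧
        (Nat.nth Nat.Prime (Nat.primeCounting q - 1 + m) : ℝ) ≤ q + ε * Real.log x) 3 (by
        intro x hx b q hq
        unfold Pool.Agent.TH882.HZ2.IQ at hq
        rw [mem_filter] at hq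
        refine ⟨hq.2.1, hq.2.2.1, hq.2.2.2.trans ?_⟩
        have h1 : 0 < x / 3 := by omega
        have h2 : Real.log ((x / 3 : ℕ) : ℝ) ≤ Real.log x := by
          apply Real.log_le_log (by exact_mod_cast h1)
          exact_mod_cast Nat.div_le_self x 3
        have h3 := mul_le_mul_of_nonneg_left h2 hε.le
        linarith) (2 * A) κ hκ
    refine ⟨δ, hδ, ?_⟩
    filter_upwards [eventually_ge_atTop x₀] with x hx
    have h1 := h x hx
    have e0 : ∏ j : Fin r, (x : ℝ) ^ (Polynomial.X : Polynomial ℤ).natDegree = (x : ℝ) ^ r := by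
      simp
    rw [e0] at h1
    refine le_trans ?_ h1
    apply Nat.cast_le.2
    apply card_le_card_of_injOn (fun c j => 2 * c j)
    swap
    · intro v _ v' _ he
      funext j
      have := congrFun he j
      simp only at this
      omega
    intro v hv
    rw [mem_coe] at hv ⊢
    unfold exceptions at hv
    rw [mem_filter, Fintype.mem_piFinset] at hv
    obtain ⟨hv1, hv2, hv3⟩ := hv
    rw [Pool.Agent.TH882.TS.mem_exc]
    refine ⟨?_, ?_, lt_of_le_of_lt ?_ hv3⟩
    · intro j
      have e1 := hv1 j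
      rw [mem_Icc] at e1
      simp only [Polynomial.natDegree_X, pow_one]
      rw [mem_Icc]
      constructor
      · omega
      · rw [mul_assoc]
        exact Nat.mul_le_mul_left 2 e1.2
    · intro l hl
      obtain ⟨a, ha⟩ := hv2 l hl
      refine ⟨a, fun hd => ha (hd.mul_right _), fun j hd => ha ?_⟩
      rw [Polynomial.eval_X, add_comm] at hd
      push_cast at hd
      exact (hd.trans (dvd_prod_of_mem (fun j => a + 2 * (v j : ℤ)) (mem_univ j))).mul_left _
    · apply Nat.cast_le.2
      set Q := Pool.Agent.TH882.TS.cnt (fun q => Nat.primeCounting q ∈ S ∧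
        (Nat.nth Nat.Prime (Nat.primeCounting q - 1 + m) : ℝ) ≤ q + ε * Real.log x)
        (fun _ : Fin r => (Polynomial.X : Polynomial ℤ)) (fun j => 2 * v j) x with hQ
      have hQm : ∀ q ∈ Q, q ≤ x ∧ q.Prime ∧ Nat.primeCounting q ∈ S ∧
          (Nat.nth Nat.Prime (Nat.primeCounting q - 1 + m) : ℝ) ≤ q + ε * Real.log x ∧
          ∀ j, (q + 2 * v j).Prime := by
        intro q hq
        rw [hQ, Pool.Agent.TH882.TS.mem_cnt, mem_Icc] at hq
        refine ⟨hq.1.2, hq.2.1, hq.2.2.1.1, hq.2.2.1.2, fun j => ?_⟩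
        have e1 := hq.2.2.2 j
        have e2 : (((2 * v j : ℕ) : ℤ) + (Polynomial.X : Polynomial ℤ).eval (q : ℤ)).toNat =
            q + 2 * v j := by
          rw [Polynomial.eval_X]
          omega
        rw [e2] at e1
        exact e1
      have hinj : Set.InjOn (fun q => Nat.primeCounting q) (Q : Set ℕ) := by
        intro q hq q' hq' he
        simp only at he
        rw [← p_pi q (hQm q hq).2.1, ← p_pi q' (hQm q' hq').2.1, he]
      rw [← card_image_of_injOn hinj, ← Set.ncard_coe_finset]
      apply Set.ncard_le_ncard _ (good_finite S m ε v x)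
      intro n hn
      rw [mem_coe, mem_image] at hn
      obtain ⟨q, hq, rfl⟩ := hn
      obtain ⟨g1, g2, g3, g4, g5⟩ := hQm q hq
      have e2 := pi_pos q g2
      refine ⟨g3, e2, ?_, ?_, ?_⟩
      · rw [p_pi q g2]
        exact g1
      · intro j
        rw [p_pi q g2]
        exact g5 j
      · rw [p_pi q g2]
        have e3 : p (Nat.primeCounting q + m) =
            Nat.nth Nat.Prime (Nat.primeCounting q - 1 + m) := by
          unfold p
          congr 1
          omega
        rw [e3]
        exact g4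
  · intro c l hl
    have hp : Prime (l : ℤ) := Nat.prime_iff_prime_int.1 hl
    by_cases h2 : l = 2
    · subst h2
      refine ⟨1, ?_⟩
      rw [Fin.prod_univ_one, one_mul]
      intro hd
      have h3 : (2 : ℤ) ∣ 1 := (dvd_add_left (dvd_mul_right 2 (c 0 : ℤ))).1 (by exact_mod_cast hd)
      exact absurd h3 (by norm_num)
    · have hl3 : 3 ≤ l := by
        have := hl.two_le
        omega
      have hn1 : ¬ (l : ℤ) ∣ 1 := by
        intro h
        have := Int.le_of_dvd (by norm_num) h
        omega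
      have hn2 : ¬ (l : ℤ) ∣ 2 := by
        intro h
        have := Int.le_of_dvd (by norm_num) h
        omega
      by_cases h3 : (l : ℤ) ∣ 1 + 2 * c 0
      · refine ⟨2, ?_⟩
        rw [Fin.prod_univ_one]
        intro hd
        rcases hp.dvd_or_dvd hd with h4 | h4
        · exact hn2 h4
        · apply hn1
          have h5 := dvd_sub h4 h3
          have h6 : (2 : ℤ) + 2 * c 0 - (1 + 2 * c 0) = 1 := by ring
          rwa [h6] at h5
      · refine ⟨1, ?_⟩
        rw [Fin.prod_univ_one, one_mul]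
        exact h3

end Pool.Agent.Results.MP_3aaefc_nt.ConstantsAlongSyndeticIndices
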